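import Mathlib

set_option autoImplicit false

/-!
# Fixed fields of exponential automorphisms of the complex numbers
-/

namespace Run7.h383.EA

open Finset Function

/-- the period of the exponential function -/
noncomputable def T : ℂ := 2 * Real.pi * Complex.I

theorem T_ne : T ≠ 0 := Complex.two_pi_I_ne_zero

section

variable {σ : ℂ ≃+* ℂ} (hσ : ∀ z : ℂ, σ (Complex.exp z) = Complex.exp (σ z))

include hσ

theorem period_mul : ∃ k : ℤ, σ T = k * T := by
  have h1 : Complex.exp (σ T) = 1 := by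
    rw [← hσ]
    have : Complex.exp T = 1 := Complex.exp_two_pi_mul_I
    rw [this, map_one]
  obtain ⟨k, hk⟩ := Complex.exp_eq_one_iff.1 h1
  exact ⟨k, hk⟩

theorem symm_exp (z : ℂ) : σ.symm (Complex.exp z) = Complex.exp (σ.symm z) := by
  apply σ.injective
  rw [hσ]
  simp

theorem period_pm : σ T = T ∨ σ T = -T := by
  obtain ⟨k, hk⟩ := period_mul hσ
  obtain ⟨k', hk'⟩ := period_mul (σ := σ.symm) (symm_exp hσ)
  have h1 : ((k * k' : ℤ) : ℂ) * T = 1 * T := by
    have h2 : σ (σ.symm T) = T := σ.apply_symm_apply T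
    rw [hk', map_mul, map_intCast, hk] at h2
    push_cast
    linear_combination h2
  have h3 : ((k * k' : ℤ) : ℂ) = 1 := mul_right_cancel₀ T_ne h1
  have h4 : k * k' = 1 := by exact_mod_cast h3
  rcases Int.eq_one_or_neg_one_of_mul_eq_one h4 with h | h
  · left
    rw [hk, h]
    simp
  · right
    rw [hk, h]
    simp

omit hσ in
theorem exp_T_four : Complex.exp (T / 4) = Complex.I := by
  have : T / 4 = (Real.pi : ℂ) / 2 * Complex.I := by
    unfold T
    ring
  rw [this]
  exact Complex.exp_pi_div_two_mul_I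

omit hσ in
theorem I_ne_neg : Complex.I ≠ -Complex.I := by
  intro h7
  have h9 := congrArg Complex.im h7
  simp at h9
  norm_num at h9

theorem period (hI : σ Complex.I = Complex.I) : σ T = T := by
  rcases period_pm hσ with h | h
  · exact h
  · exfalso
    have h6 : σ (T / 4) = -(T / 4) := by
      have h4' : σ (4 : ℂ) = 4 := map_ofNat σ 4
      rw [map_div₀, h, h4']
      ring
    have h8 := hσ (T / 4)
    rw [exp_T_four, h6, Complex.exp_neg, exp_T_four, hI, Complex.inv_I] at h8
    exact I_ne_neg h8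

theorem period_neg (hI : σ Complex.I = -Complex.I) : σ T = -T := by
  rcases period_pm hσ with h | h
  · exfalso
    have h6 : σ (T / 4) = T / 4 := by
      have h4' : σ (4 : ℂ) = 4 := map_ofNat σ 4
      rw [map_div₀, h, h4']
    have h8 := hσ (T / 4)
    rw [exp_T_four, h6, exp_T_four, hI] at h8
    exact I_ne_neg h8.symm
  · exact h

theorem log_fixed {z : ℂ} (h : σ (Complex.exp z) = Complex.exp z) :
    ∃ k : ℤ, σ z = z + k * T := by
  rw [hσ] at h
  exact Complex.exp_eq_exp_iff_exists_int.1 h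

theorem root_fixed (hI : σ Complex.I = Complex.I) (n : ℕ) :
    σ (Complex.exp (T / n)) = Complex.exp (T / n) := by
  rw [hσ, map_div₀, period hσ hI, map_natCast]

/-- If there is a fixed number with a logarithm which is not fixed, then there is a number `z` which is
mapped to `z + 2πi`. -/
theorem exists_shift (h : ¬ ∀ w : ℂ, σ (Complex.exp w) = Complex.exp w → σ w = w) : ∃ z : ℂ, σ z = z + T := by
  push Not at h
  obtain ⟨w, hw, hne⟩ := h
  obtain ⟨k, hk⟩ := log_fixed hσ hw
  have hk0 : (k : ℂ) ≠ 0 := by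
    intro h0
    apply hne
    rw [hk, h0]
    ring
  refine ⟨w / k, ?_⟩
  rw [map_div₀, hk, map_intCast]
  field_simp

end

/-- discrete Fourier coefficients of an orbit -/
noncomputable def L (σ : ℂ ≃+* ℂ) (ω : ℂ) (m l : ℕ) (x : ℂ) : ℂ :=
  ∑ j ∈ range m, (ω ^ l) ^ j * (σ^[j] x)

theorem L_apply {σ : ℂ ≃+* ℂ} {ω : ℂ} {m : ℕ} (hω : ω ^ m = 1) (hfix : σ ω = ω) (l : ℕ)
    {x : ℂ} (hx : σ^[m] x = x) : ω ^ l * σ (L σ ω m l x) = L σ ω m l x := by
  have h1 : ω ^ l * σ (L σ ω m l x) = ∑ j ∈ range m, (ω ^ l) ^ (j + 1) * (σ^[j + 1] x) := by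
    unfold L
    rw [map_sum, mul_sum]
    refine sum_congr rfl fun j _ => ?_
    rw [map_mul, map_pow, map_pow, hfix, iterate_succ_apply']
    ring
  have h2 := sum_range_succ' (fun j => (ω ^ l) ^ j * (σ^[j] x)) m
  have h3 := sum_range_succ (fun j => (ω ^ l) ^ j * (σ^[j] x)) m
  have h4 : (ω ^ l) ^ m = 1 := by
    rw [← pow_mul, mul_comm, pow_mul, hω, one_pow]
  rw [h1]
  unfold L
  rw [h2] at h3
  rw [h4, hx, iterate_zero, id, pow_zero] at h3
  exact add_right_cancel h3

theorem sum_L {σ : ℂ ≃+* ℂ} {ω : ℂ} {m : ℕ} (hm : 1 ≤ m) (hω : IsPrimitiveRoot ω m) (x : ℂ) :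
    ∑ l ∈ range m, L σ ω m l x = m * x := by
  unfold L
  rw [sum_comm]
  have h1 : ∀ j ∈ range m, j ≠ 0 → ∑ l ∈ range m, (ω ^ l) ^ j * (σ^[j] x) = 0 := by
    intro j hj hj0
    rw [← sum_mul]
    have h2 : ∑ l ∈ range m, (ω ^ l) ^ j = 0 := by
      have h3 : ∑ l ∈ range m, (ω ^ l) ^ j = ∑ l ∈ range m, (ω ^ j) ^ l :=
        sum_congr rfl fun l _ => by rw [← pow_mul, ← pow_mul, mul_comm]
      have h4 := geom_sum_mul (ω ^ j) m
      have h5 : (ω ^ j) ^ m = 1 := by
        rw [← pow_mul, mul_comm, pow_mul, hω.pow_eq_one, one_pow]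
      rw [h5, sub_self] at h4
      rw [h3]
      refine (mul_eq_zero.1 h4).resolve_right ?_
      intro h6
      have h7 : ω ^ j = 1 := sub_eq_zero.1 h6
      have h8 := hω.dvd_of_pow_eq_one j h7
      exact absurd (Nat.le_of_dvd (Nat.pos_of_ne_zero hj0) h8) (not_le.2 (mem_range.1 hj))
    rw [h2, zero_mul]
  rw [sum_eq_single 0 h1 (fun h => absurd (mem_range.2 hm) h)]
  simp

/-- a root of a nonzero polynomial with fixed coefficients is periodic -/
theorem periodic_of_root {σ : ℂ ≃+* ℂ} {p : Polynomial ℂ} (hp : p ≠ 0)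
    (hc : ∀ i, σ (p.coeff i) = p.coeff i) {x : ℂ} (hx : p.eval x = 0) :
    ∃ n : ℕ, 1 ≤ n ∧ σ^[n] x = x := by
  by_contra hcon
  push Not at hcon
  have hmap : ∀ y : ℂ, p.eval (σ y) = σ (p.eval y) := by
    intro y
    rw [Polynomial.eval_eq_sum_range, Polynomial.eval_eq_sum_range, map_sum]
    refine sum_congr rfl fun i _ => ?_
    rw [map_mul, map_pow, hc]
  have hroot : ∀ k : ℕ, σ^[k] x ∈ {y : ℂ | p.eval y = 0} := by
    intro k
    induction k with
    | zero => exact hx
    | succ k ih =>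
      show p.eval (σ^[k + 1] x) = 0
      rw [iterate_succ_apply', hmap]
      have ih' : p.eval (σ^[k] x) = 0 := ih
      rw [ih', map_zero]
  have hinj : Function.Injective (fun k : ℕ => σ^[k] x) := by
    have key : ∀ a b : ℕ, a < b → σ^[a] x ≠ σ^[b] x := by
      intro a b hab h
      obtain ⟨d, rfl⟩ := Nat.exists_eq_add_of_lt hab
      have h1 : σ^[a] x = σ^[a] (σ^[d + 1] x) := by
        rw [← iterate_add_apply]
        exact h
      have h2 : x = σ^[d + 1] x := (σ.injective.iterate a) h1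
      exact hcon (d + 1) (by omega) h2.symm
    intro a b h
    rcases lt_trichotomy a b with h1 | h1 | h1
    · exact absurd h (key a b h1)
    · exact h1
    · exact absurd h.symm (key b a h1)
  have hinf := Set.infinite_of_injective_forall_mem hinj hroot
  apply hinf
  refine (p.roots.toFinset.finite_toSet).subset ?_
  intro y hy
  have hy' : p.eval y = 0 := hy
  simp [hp, hy']

section

variable {σ : ℂ ≃+* ℂ} (hσ : ∀ z : ℂ, σ (Complex.exp z) = Complex.exp (σ z))
  (hI : σ Complex.I = -Complex.I)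

include hI

/-- every fixed number is plus or minus the square of a fixed number -/
theorem pm_square {a : ℂ} (ha : σ a = a) : ∃ c : ℂ, σ c = c ∧ (a = c ^ 2 ∨ a = -c ^ 2) := by
  by_cases h0 : a = 0
  · exact ⟨0, map_zero σ, Or.inl (by rw [h0]; ring)⟩
  have h1 : Complex.exp (Complex.log a / 2) ^ 2 = a := by
    rw [← Complex.exp_nat_mul]
    have : ((2 : ℕ) : ℂ) * (Complex.log a / 2) = Complex.log a := by
      push_cast
      ring
    rw [this, Complex.exp_log h0]
  generalize Complex.exp (Complex.log a / 2) = c at h1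
  have h2 : (σ c) ^ 2 = c ^ 2 := by
    rw [← map_pow, h1, ha]
  rcases sq_eq_sq_iff_eq_or_eq_neg.1 h2 with h | h
  · exact ⟨c, h, Or.inl h1.symm⟩
  · refine ⟨Complex.I * c, ?_, Or.inr ?_⟩
    · rw [map_mul, hI, h]
      ring
    · rw [mul_pow, Complex.I_sq, h1]
      ring

include hσ

/-- the exponential function is a bijection from the fixed field onto its nonzero squares -/
theorem exp_bij {a : ℂ} (ha0 : a ≠ 0) (ha : σ a = a) :
    ∃! w : ℂ, σ w = w ∧ Complex.exp w = a ^ 2 := by
  have hT := period_neg hσ hI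
  have h0 : Complex.exp (Complex.log a) = a := Complex.exp_log ha0
  obtain ⟨k, hk⟩ := log_fixed hσ (z := Complex.log a) (by rw [h0]; exact ha)
  have h2 : σ (2 : ℂ) = 2 := map_ofNat σ 2
  refine ⟨2 * Complex.log a + k * T, ⟨?_, ?_⟩, ?_⟩
  · rw [map_add, map_mul, map_mul, map_intCast, h2, hk, hT]
    ring
  · rw [Complex.exp_add]
    have h3 : Complex.exp (k * T) = 1 := Complex.exp_eq_one_iff.2 ⟨k, rfl⟩
    have h4 : Complex.exp (2 * Complex.log a) = a ^ 2 := by
      have := Complex.exp_nat_mul (Complex.log a) 2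
      rw [h0] at this
      push_cast at this
      exact this
    rw [h3, h4, mul_one]
  · rintro w ⟨hw1, hw2⟩
    have h3 : Complex.exp (k * T) = 1 := Complex.exp_eq_one_iff.2 ⟨k, rfl⟩
    have h4 : Complex.exp (2 * Complex.log a) = a ^ 2 := by
      have := Complex.exp_nat_mul (Complex.log a) 2
      rw [h0] at this
      push_cast at this
      exact this
    have h5 : Complex.exp w = Complex.exp (2 * Complex.log a + k * T) := by
      rw [Complex.exp_add, h3, h4, mul_one, hw2]
    obtain ⟨n, hn⟩ := Complex.exp_eq_exp_iff_exists_int.1 h5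
    have hn' : w = 2 * Complex.log a + k * T + n * T := hn
    have h6 : σ w = σ (2 * Complex.log a + k * T + n * T) := by rw [← hn']
    rw [hw1, map_add, map_add, map_mul, map_mul, map_mul, map_intCast, map_intCast, h2, hk,
      hT] at h6
    have h7 : (n : ℂ) * T = 0 := by linear_combination (h6 - hn') / 2
    rw [hn', h7, add_zero]

/-- If a number fixed by `σ²` has a logarithm which is not fixed by `σ²`, then there is a number `z`
which is mapped to `-z - πi`. -/
theorem exists_shift_neg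
    (h : ¬ ∀ w : ℂ, σ (σ (Complex.exp w)) = Complex.exp w → σ (σ w) = w) :
    ∃ z : ℂ, σ z = -z - T / 2 := by
  have hσ2 : ∀ z : ℂ, (σ.trans σ) (Complex.exp z) = Complex.exp ((σ.trans σ) z) := by
    intro z
    show σ (σ (Complex.exp z)) = Complex.exp (σ (σ z))
    rw [hσ, hσ]
  obtain ⟨z, hz⟩ := exists_shift hσ2 h
  have hz' : σ (σ z) = z + T := hz
  have hT := period_neg hσ hI
  refine ⟨(z - σ z) / 2 - T / 4, ?_⟩
  have h2 : σ (2 : ℂ) = 2 := map_ofNat σ 2
  have h4 : σ (4 : ℂ) = 4 := map_ofNat σ 4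
  rw [map_sub, map_div₀, map_div₀, map_sub, hz', h2, h4, hT]
  ring

end

/-- sums of two squares are squares in the fixed field, if the fixed field of `σ²` is closed under
logarithms -/
theorem sum_squares {σ : ℂ ≃+* ℂ} (hσ : ∀ z : ℂ, σ (Complex.exp z) = Complex.exp (σ z))
    (hI : σ Complex.I = -Complex.I)
    (hA : ∀ w : ℂ, σ (σ (Complex.exp w)) = Complex.exp w → σ (σ w) = w) {a b : ℂ}
    (ha : σ a = a) (hb : σ b = b) : ∃ c : ℂ, σ c = c ∧ a ^ 2 + b ^ 2 = c ^ 2 := by
  have hu1 : σ (a + Complex.I * b) = a - Complex.I * b := by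
    rw [map_add, map_mul, hI, ha, hb]
    ring
  have hu2 : σ (a - Complex.I * b) = a + Complex.I * b := by
    rw [map_sub, map_mul, hI, ha, hb]
    ring
  by_cases hu : a + Complex.I * b = 0
  · refine ⟨0, map_zero σ, ?_⟩
    have : a ^ 2 + b ^ 2 = (a + Complex.I * b) * (a - Complex.I * b) := by
      linear_combination (b ^ 2) * Complex.I_sq
    rw [this, hu]
    ring
  have h0 : Complex.exp (Complex.log (a + Complex.I * b)) = a + Complex.I * b :=
    Complex.exp_log hu
  have h1 : σ (σ (Complex.log (a + Complex.I * b))) = Complex.log (a + Complex.I * b) := by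
    apply hA
    rw [h0, hu1, hu2]
  have h2' : σ (2 : ℂ) = 2 := map_ofNat σ 2
  obtain ⟨c, hc⟩ : ∃ c, c = Complex.exp (Complex.log (a + Complex.I * b) / 2) := ⟨_, rfl⟩
  have h2 : c ^ 2 = a + Complex.I * b := by
    rw [hc, ← Complex.exp_nat_mul]
    have : ((2 : ℕ) : ℂ) * (Complex.log (a + Complex.I * b) / 2) =
        Complex.log (a + Complex.I * b) := by
      push_cast
      ring
    rw [this, h0]
  have h3 : σ (σ c) = c := by
    rw [hc, hσ, hσ, map_div₀, map_div₀, h2', h2', h1]
  refine ⟨c * σ c, ?_, ?_⟩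
  · rw [map_mul, h3, mul_comm]
  · have h4 : (σ c) ^ 2 = a - Complex.I * b := by rw [← map_pow, h2, hu1]
    rw [mul_pow, h2, h4]
    linear_combination (b ^ 2) * Complex.I_sq

/-- if `σ z = -z - πi` then `-1` is a sum of two squares of fixed numbers -/
theorem neg_one_sum {σ : ℂ ≃+* ℂ} (hσ : ∀ z : ℂ, σ (Complex.exp z) = Complex.exp (σ z))
    (hI : σ Complex.I = -Complex.I) {z : ℂ} (hz : σ z = -z - T / 2) :
    ∃ u v : ℂ, σ u = u ∧ σ v = v ∧ u ^ 2 + v ^ 2 = -1 := by
  have hT := period_neg hσ hI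
  have h2' : σ (2 : ℂ) = 2 := map_ofNat σ 2
  have hzz : σ (σ z) = z + T := by
    rw [hz, map_sub, map_neg, map_div₀, hz, hT, h2']
    ring
  obtain ⟨a, ha⟩ : ∃ a, a = Complex.exp z := ⟨_, rfl⟩
  have h1 : σ (σ a) = a := by
    rw [ha, hσ, hσ, hzz, Complex.exp_add]
    have : Complex.exp T = 1 := Complex.exp_two_pi_mul_I
    rw [this, mul_one]
  have h2 : a * σ a = -1 := by
    rw [ha, hσ, hz, ← Complex.exp_add]
    have h3 : z + (-z - T / 2) = -(T / 2) := by ring
    have h4 : T / 2 = (Real.pi : ℂ) * Complex.I := by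
      unfold T
      ring
    rw [h3, Complex.exp_neg, h4, Complex.exp_pi_mul_I]
    norm_num
  have hI2 : Complex.I * Complex.I = -1 := Complex.I_mul_I
  refine ⟨(a + σ a) / 2, Complex.I * (σ a - a) / 2, ?_, ?_, ?_⟩
  · rw [map_div₀, map_add, h1, h2', add_comm]
  · rw [map_div₀, map_mul, map_sub, h1, h2', hI]
    ring
  · have : ((a + σ a) / 2) ^ 2 + (Complex.I * (σ a - a) / 2) ^ 2 = a * σ a := by
      linear_combination ((σ a - a) ^ 2 / 4) * hI2
    rw [this, h2]

end Run7.h383.EA
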